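import Mathlib
import Pool.Agent.N44.FA.Stm

/-!
Project FA, leaf WW: an element which generates an HNN extension with a countable subgroup of the
ultraproduct.
-/

set_option autoImplicit false

namespace Pool.Agent.N2.FA.WW

open Pool.Agent.N44.FA HNNExtension HNNExtension.NormalWord

/-- the value of a word -/
def val {S : Type} [Group S] (w : S) (P : S × List (ℤˣ × S)) : S :=
  P.1 * (P.2.map fun x => w ^ (x.1 : ℤ) * x.2).prod

theorem val_apply {S : ℕ → Type} [∀ k, Group (S k)] (w : ∀ k, S k)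
    (P : (∀ k, S k) × List (ℤˣ × (∀ k, S k))) (n : ℕ) :
    val w P n = val (w n) (P.1 n, P.2.map fun x => (x.1, x.2 n)) := by
  obtain ⟨g, l⟩ := P
  simp only [val, Pi.mul_apply]
  congr 1
  induction l with
  | nil => rfl
  | cons a l ih => simp only [List.map_cons, List.prod_cons, Pi.mul_apply, Pi.pow_apply, ih]

theorem map_val {S T : Type} [Group S] [Group T] (f : S →* T) (w : S)
    (P : S × List (ℤˣ × S)) :
    f (val w P) = val (f w) (f P.1, P.2.map fun x => (x.1, f x.2)) := by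
  obtain ⟨g, l⟩ := P
  simp only [val, map_mul]
  congr 1
  induction l with
  | nil => simp
  | cons a l ih => simp only [List.map_cons, List.prod_cons, map_mul, map_zpow, ih]

section

variable {S : ℕ → Type} [∀ k, Group (S k)] (ℓ : ∀ k, S k → ℕ)

/-- the first `k` words have length at least `k` -/
def Good (W : ℕ → (∀ k, S k) × List (ℤˣ × (∀ k, S k))) (n k : ℕ) (w : S n) : Prop :=
  ∀ i < k, k ≤ ℓ n (val w ((W i).1 n, (W i).2.map fun x => (x.1, x.2 n)))

theorem Good.anti {W : ℕ → (∀ k, S k) × List (ℤˣ × (∀ k, S k))} {n k k' : ℕ} {w : S n}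
    (h : Good ℓ W n k w) (hk : k' ≤ k) : Good ℓ W n k' w :=
  fun i hi => hk.trans (h i (lt_of_lt_of_le hi hk))

theorem Good.zero (W : ℕ → (∀ k, S k) × List (ℤˣ × (∀ k, S k))) (n : ℕ) (w : S n) :
    Good ℓ W n 0 w := fun i hi => absurd hi (Nat.not_lt_zero i)

theorem exists_good (hM : ∀ k : ℕ, ∃ C : ℕ, ∀ n, C ≤ n → MixAt (S n) (ℓ n) k C)
    (W : ℕ → (∀ k, S k) × List (ℤˣ × (∀ k, S k))) (hne : ∀ i, (W i).2 ≠ [])
    (hturn : ∀ (i C : ℕ), ∀ᶠ n in (Filter.hyperfilter ℕ : Filter ℕ),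
      ((W i).2.map fun x => (x.1, x.2 n)).IsChain (fun a b => a.1 ≠ b.1 → C ≤ ℓ n a.2)) (k : ℕ) :
    ∀ᶠ n in (Filter.hyperfilter ℕ : Filter ℕ), ∃ w : S n, Good ℓ W n k w := by
  obtain ⟨C, hC⟩ := hM (k + ∑ i ∈ Finset.range k, (W i).2.length)
  have h1 : ∀ᶠ n in (Filter.hyperfilter ℕ : Filter ℕ), C ≤ n :=
    (Filter.eventually_ge_atTop C).filter_mono Nat.hyperfilter_le_atTop
  have h2 : ∀ᶠ n in (Filter.hyperfilter ℕ : Filter ℕ), ∀ i ∈ {i | i < k},
      ((W i).2.map fun x => (x.1, x.2 n)).IsChain (fun a b => a.1 ≠ b.1 → C ≤ ℓ n a.2) :=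
    (Filter.eventually_all_finite (Set.finite_lt_nat k)).2 fun i _ => hturn i C
  filter_upwards [h1, h2] with n hn1 hn2
  obtain ⟨w, hw⟩ := hC n hn1
    ((List.range k).map fun i => ((W i).1 n, (W i).2.map fun x => (x.1, x.2 n)))
    (by simp) (by
      intro P hP
      obtain ⟨i, hi, rfl⟩ := List.mem_map.1 hP
      rw [List.mem_range] at hi
      refine ⟨?_, ?_, hn2 i hi⟩
      · simpa using hne i
      · rw [List.length_map]
        have := Finset.single_le_sum (f := fun i => (W i).2.length)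
          (fun _ _ => Nat.zero_le _) (Finset.mem_range.2 hi)
        omega)
  refine ⟨w, fun i hi => ?_⟩
  have := hw _ (List.mem_map.2 ⟨i, List.mem_range.2 hi, rfl⟩)
  exact (Nat.le_add_right _ _).trans this

theorem exists_w (hM : ∀ k : ℕ, ∃ C : ℕ, ∀ n, C ≤ n → MixAt (S n) (ℓ n) k C)
    (W : ℕ → (∀ k, S k) × List (ℤˣ × (∀ k, S k))) (hne : ∀ i, (W i).2 ≠ [])
    (hturn : ∀ (i C : ℕ), ∀ᶠ n in (Filter.hyperfilter ℕ : Filter ℕ),
      ((W i).2.map fun x => (x.1, x.2 n)).IsChain (fun a b => a.1 ≠ b.1 → C ≤ ℓ n a.2)) :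
    ∃ w : ∀ n, S n, ∀ k, ∀ᶠ n in (Filter.hyperfilter ℕ : Filter ℕ), Good ℓ W n k (w n) := by
  classical
  have hex : ∀ n, ∃ w : S n, Good ℓ W n (Nat.findGreatest (fun k => ∃ w : S n, Good ℓ W n k w) n)
      w := fun n => Nat.findGreatest_spec (P := fun k => ∃ w : S n, Good ℓ W n k w)
        (Nat.zero_le n) ⟨1, Good.zero ℓ W n 1⟩
  choose w hw using hex
  refine ⟨w, fun k => ?_⟩
  have h1 : ∀ᶠ n in (Filter.hyperfilter ℕ : Filter ℕ), k ≤ n :=
    (Filter.eventually_ge_atTop k).filter_mono Nat.hyperfilter_le_atTop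
  filter_upwards [h1, exists_good ℓ hM W hne hturn k] with n hn1 hn2
  exact (hw n).anti ℓ (Nat.le_findGreatest hn1 hn2)

end

/-- reduced words -/
abbrev Rw (B : Type) [Group B] : Type :=
  {p : B × List (ℤˣ × B) // p.2 ≠ [] ∧ p.2.IsChain (fun a b => a.2 = 1 → a.1 = b.1)}

instance (B : Type) [Group B] : Nonempty (Rw B) :=
  ⟨⟨(1, [(1, 1)]), by simp, List.isChain_singleton _⟩⟩

theorem t_ww : S_WW := by
  intro S _ ℓ hl hM G hG
  have hcB : Countable (G.map (QuotientGroup.mk' (NN S ℓ hl))) := by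
    have hs : Function.Surjective (fun g : G =>
        (⟨QuotientGroup.mk' (NN S ℓ hl) g, Subgroup.mem_map_of_mem _ g.2⟩ :
          G.map (QuotientGroup.mk' (NN S ℓ hl)))) := by
      rintro ⟨_, g, hg, rfl⟩
      exact ⟨⟨g, hg⟩, rfl⟩
    exact hs.countable
  have hσ : ∀ g : G.map (QuotientGroup.mk' (NN S ℓ hl)), ∃ x : ∀ k, S k,
      QuotientGroup.mk' (NN S ℓ hl) x = g := fun g => QuotientGroup.mk'_surjective _ _
  choose σ hσ using hσ
  obtain ⟨E, hE⟩ := exists_surjective_nat (Rw (G.map (QuotientGroup.mk' (NN S ℓ hl))))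
  let W : ℕ → (∀ k, S k) × List (ℤˣ × (∀ k, S k)) := fun i =>
    (σ (E i).1.1, (E i).1.2.map fun x => (x.1, σ x.2))
  have hne : ∀ i, (W i).2 ≠ [] := fun i h0 => (E i).2.1 (by simpa [W] using h0)
  have hturn : ∀ (i C : ℕ), ∀ᶠ n in (Filter.hyperfilter ℕ : Filter ℕ),
      ((W i).2.map fun x => (x.1, x.2 n)).IsChain (fun a b => a.1 ≠ b.1 → C ≤ ℓ n a.2) := by
    intro i C
    have h1 : ∀ᶠ n in (Filter.hyperfilter ℕ : Filter ℕ), ∀ a ∈ {a | a ∈ (E i).1.2},
        a.2 ≠ 1 → C ≤ ℓ n (σ a.2 n) := by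
      rw [Filter.eventually_all_finite (List.finite_toSet _)]
      intro a _
      by_cases ha : a.2 = 1
      · exact Filter.Eventually.of_forall fun n h => absurd ha h
      · have h2 : ¬ ∀ᶠ n in (Filter.hyperfilter ℕ : Filter ℕ), ℓ n (σ a.2 n) ≤ C := by
          intro h3
          apply ha
          have h4 : σ a.2 ∈ NN S ℓ hl := ⟨C, h3⟩
          have h5 := hσ a.2
          rw [QuotientGroup.mk'_apply, (QuotientGroup.eq_one_iff _).2 h4] at h5
          exact Subtype.ext h5.symm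
        rw [← Ultrafilter.eventually_not] at h2
        filter_upwards [h2] with n hn _
        omega
    filter_upwards [h1] with n hn
    have h6 : ((W i).2.map fun x => (x.1, x.2 n)) =
        (E i).1.2.map fun x => (x.1, σ x.2 n) := by
      simp [W, Function.comp_def]
    rw [h6, List.isChain_map]
    refine (E i).2.2.imp_of_mem_imp ?_
    intro a b ha hb hab hne
    exact hn a ha fun h0 => hne (hab h0)
  obtain ⟨w, hw⟩ := exists_w ℓ hM W hne hturn
  have hrel : ∀ a : (⊥ : Subgroup (G.map (QuotientGroup.mk' (NN S ℓ hl)))),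
      QuotientGroup.mk' (NN S ℓ hl) w * (G.map (QuotientGroup.mk' (NN S ℓ hl))).subtype a =
      (G.map (QuotientGroup.mk' (NN S ℓ hl))).subtype ((MulEquiv.refl _) a) *
        QuotientGroup.mk' (NN S ℓ hl) w := by
    rintro ⟨a, ha⟩
    rw [Subgroup.mem_bot] at ha
    subst ha
    simp
  refine ⟨w, HNNExtension.lift (Subgroup.subtype _) (QuotientGroup.mk' (NN S ℓ hl) w) hrel,
    ?_, ?_, ?_⟩
  · rw [injective_iff_map_eq_one]
    intro p hp
    obtain ⟨d⟩ := TransversalPair.nonempty (G.map (QuotientGroup.mk' (NN S ℓ hl))) ⊥ ⊥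
    have hpp : (p • (empty : NormalWord d)).prod (MulEquiv.refl _) = p := by
      rw [prod_smul, prod_empty, mul_one]
    generalize (p • (empty : NormalWord d)) = v at hpp
    obtain ⟨⟨h, L, hch⟩, hmem⟩ := v
    have hlift : HNNExtension.lift (Subgroup.subtype _) (QuotientGroup.mk' (NN S ℓ hl) w) hrel p =
        val (QuotientGroup.mk' (NN S ℓ hl) w) ((h : (∀ k, S k) ⧸ NN S ℓ hl),
          L.map fun x => (x.1, (x.2 : (∀ k, S k) ⧸ NN S ℓ hl))) := by
      rw [← hpp]
      simp only [ReducedWord.prod, map_mul, val, lift_of, map_list_prod, List.map_map]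
      congr 2
      refine List.map_congr_left fun x _ => ?_
      simp
    by_cases hL : L = []
    · subst hL
      have h1 : h = 1 := by
        apply Subtype.ext
        have := hlift.symm.trans hp
        simpa [val] using this
      rw [← hpp, h1]
      simp [ReducedWord.prod]
    · exfalso
      have hch' : L.IsChain (fun a b => a.2 = 1 → a.1 = b.1) := by
        refine hch.imp ?_
        intro a b hab h0
        apply hab
        rw [h0]
        exact Subgroup.one_mem _
      obtain ⟨i, hi⟩ := hE ⟨(h, L), hL, hch'⟩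
      have hWi : W i = (σ h, L.map fun x => (x.1, σ x.2)) := by
        simp only [W]
        rw [hi]
      have hval : QuotientGroup.mk' (NN S ℓ hl) (val w (W i)) = 1 := by
        rw [map_val, hWi]
        rw [hlift] at hp
        rw [← hp]
        simp only [List.map_map, hσ]
        congr 2
        refine List.map_congr_left fun x _ => ?_
        simp only [Function.comp_apply, hσ]
      rw [QuotientGroup.mk'_apply, QuotientGroup.eq_one_iff] at hval
      obtain ⟨C, hC⟩ := hval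
      obtain ⟨n, hn1, hn2⟩ := (hC.and (hw (i + C + 1))).exists
      have := hn2 i (by omega)
      rw [← val_apply] at this
      omega
  · intro g
    rw [lift_of]
    rfl
  · rw [lift_t]

end Pool.Agent.N2.FA.WW
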